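import Pool.Agent.PCL.Stmts

/-!
# Row PRM of squad PCL: the minors of a basis of a saturated lattice
-/

set_option autoImplicit false

namespace Pool.Agent.PCL.H92

open scoped BigOperators

/-- the columns of the basis are linearly independent modulo `p` -/
theorem cols_indep {ι : Type} [Fintype ι] {m : ℕ} (L : Submodule ℤ (ι → ℤ))
    (b : Module.Basis (Fin m) ℤ L) (p : ℕ) (hp : p.Prime)
    (hsat : ∀ x : ι → ℤ, (p : ℤ) • x ∈ L → x ∈ L) (c : Fin m → ZMod p)
    (hc : ∀ i, ∑ k, c k * (((b k : ι → ℤ) i : ℤ) : ZMod p) = 0) : c = 0 := by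
  have hnz : NeZero p := ⟨hp.ne_zero⟩
  obtain ⟨z, hz⟩ : ∃ z : Fin m → ℤ, ∀ k, ((z k : ℤ) : ZMod p) = c k :=
    ⟨fun k => ((c k).val : ℤ), fun k => by simp⟩
  have h1 : ∀ i, ∃ x : ℤ, ∑ k, z k * (b k : ι → ℤ) i = p * x := by
    intro i
    have h2 : ((∑ k, z k * (b k : ι → ℤ) i : ℤ) : ZMod p) = 0 := by
      push_cast
      rw [← hc i]
      refine Finset.sum_congr rfl fun k _ => ?_
      rw [hz]
    exact (ZMod.intCast_zmod_eq_zero_iff_dvd _ p).1 h2
  choose x hx using h1
  have h2 : (p : ℤ) • x = ∑ k, z k • (b k : ι → ℤ) := by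
    funext i
    rw [Pi.smul_apply, smul_eq_mul, ← hx i, Finset.sum_apply]
    rfl
  have h3 : x ∈ L := by
    refine hsat x ?_
    rw [h2]
    exact Submodule.sum_mem _ fun k _ => Submodule.smul_mem _ _ (b k).2
  have h4 : (p : ℤ) • (⟨x, h3⟩ : L) = ∑ k, z k • b k := by
    apply Subtype.ext
    rw [Submodule.coe_smul, Submodule.coe_sum]
    exact h2
  funext k
  have h5 : z k = p * b.repr ⟨x, h3⟩ k := by
    have h6 := congrArg (fun y => b.repr y k) h4
    simp only [map_smul, Finsupp.smul_apply, smul_eq_mul, b.repr_sum_self] at h6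
    exact h6.symm
  rw [← hz k, h5]
  simp

/-- a family of vectors spanning `(Fin m → F)` contains a basis -/
theorem exists_minor {F : Type} [Field F] {ι : Type} {m : ℕ} (v : ι → Fin m → F)
    (hv : ∀ c : Fin m → F, (∀ i, ∑ k, c k * v i k = 0) → c = 0) :
    ∃ s : Fin m → ι, (Matrix.of fun i j => v (s i) j).det ≠ 0 := by
  have hspan : Submodule.span F (Set.range v) = ⊤ := by
    by_contra hne
    obtain ⟨f, hf0, hf⟩ := Submodule.exists_le_ker_of_lt_top _ (lt_top_iff_ne_top.2 hne)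
    apply hf0
    have h1 : ∀ y : Fin m → F, f y = ∑ k, y k * f (Pi.single k 1) := by
      intro y
      conv_lhs => rw [pi_eq_sum_univ' y]
      rw [map_sum]
      refine Finset.sum_congr rfl fun k _ => ?_
      rw [map_smul, smul_eq_mul]
    have h2 : (fun k => f (Pi.single k 1)) = 0 := by
      refine hv _ fun i => ?_
      have h3 : f (v i) = 0 := hf (Submodule.subset_span ⟨i, rfl⟩)
      rw [h1] at h3
      rw [← h3]
      exact Finset.sum_congr rfl fun k _ => mul_comm _ _
    refine LinearMap.ext fun y => ?_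
    rw [h1 y]
    refine Finset.sum_eq_zero fun k _ => ?_
    rw [congrFun h2 k]
    simp
  obtain ⟨κ, a, -, ha2, ha3⟩ := exists_linearIndependent' F v
  rw [hspan] at ha2
  have hB : Module.Basis κ F (Fin m → F) := Module.Basis.mk ha3 ha2.ge
  have hcard : Nonempty (Fin m ≃ κ) := by
    have h5 := (Pi.basisFun F (Fin m)).indexEquiv hB
    exact ⟨h5⟩
  obtain ⟨e⟩ := hcard
  refine ⟨a ∘ e, ?_⟩
  have hli : LinearIndependent F (fun i => v (a (e i))) :=
    ha3.comp e e.injective
  have hu : IsUnit (Matrix.of fun i j => v ((a ∘ e) i) j) := by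
    rw [← Matrix.linearIndependent_rows_iff_isUnit]
    exact hli
  exact ((Matrix.isUnit_iff_isUnit_det _).1 hu).ne_zero

/-- **Row PRM** -/
theorem prm : PrmStmt := by
  intro ι _ m L b p hp hsat
  have hF : Fact p.Prime := ⟨hp⟩
  obtain ⟨s, hs⟩ := exists_minor (F := ZMod p)
    (fun i k => (((b k : ι → ℤ) i : ℤ) : ZMod p)) (fun c hc => cols_indep L b p hp hsat c hc)
  refine ⟨s, fun hd => hs ?_⟩
  have h1 : ((mn (fun k => (b k : ι → ℤ)) s : ℤ) : ZMod p) = 0 :=
    (ZMod.intCast_zmod_eq_zero_iff_dvd _ p).2 hd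
  rw [← h1]
  unfold mn
  rw [← eq_intCast (Int.castRingHom (ZMod p)), RingHom.map_det]
  congr 1

end Pool.Agent.PCL.H92
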